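import Pool.Agent.W905.TM.Circ

namespace Pool.Agent.W409.TM

open Finset H746R3.Inv Pool.Agent.W905.TM

theorem jun_aux {K : Type} [Field K] {V : Type} [DecidableEq V] (H : Finset V) :
    ∀ f : (V → Bool) → K, (∀ x y, (∀ i ∈ H, x i = y i) → f x = f y) → f ∈ LD K V H.card := by
  induction H using Finset.induction_on with
  | empty =>
    intro f hf
    have h : f = fun _ => f (fun _ => true) := by
      funext x
      exact hf _ _ (by simp)
    rw [h]
    exact const_mem _ _
  | insert i H hi ih =>
    intro f hf
    rw [Finset.card_insert_of_notMem hi]
    have h0 : ∀ b : Bool, (fun y : V → Bool => f (Function.update y i b)) ∈ LD K V H.card := by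
      intro b
      apply ih
      intro x y hxy
      apply hf
      intro l hl
      by_cases hli : l = i
      · subst hli
        simp
      · rw [Function.update_of_ne hli, Function.update_of_ne hli]
        exact hxy l ((Finset.mem_insert.mp hl).resolve_left hli)
    have h1 : f = (fun y : V → Bool => f (Function.update y i false)) +
        ((fun y : V → Bool => (bK (y i) : K)) *
          ((fun y : V → Bool => f (Function.update y i true)) -
            (fun y : V → Bool => f (Function.update y i false)))) := by
      funext y
      simp only [Pi.add_apply, Pi.mul_apply, Pi.sub_apply]
      cases hb : y i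
      · have : Function.update y i false = y := by
          rw [← hb]
          exact Function.update_eq_self i y
        rw [this]
        simp
      · have : Function.update y i true = y := by
          rw [← hb]
          exact Function.update_eq_self i y
        rw [this]
        simp
    rw [h1]
    refine Submodule.add_mem _ (LD_mono (Nat.le_succ _) (h0 false)) ?_
    have h2 := mul_mem (coord_mem (K := K) i) (Submodule.sub_mem _ (h0 true) (h0 false))
    rw [add_comm] at h2
    exact h2

theorem jun : S_JUN := by
  intro K _ V _ _ H f hf
  apply jun_aux H
  intro x y hxy
  rw [hf x y hxy]

end Pool.Agent.W409.TM
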