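import Pool.Agent.W905.TM.Comb

namespace Pool.Agent.W409.TM

open Finset Pool.Agent.W905.TM

theorem e1 (q V : ℕ) (hq : 2 ≤ q) (hV : 0 < V) : (4 * q + 3) * V + 1 ≤ 8 * V * q := by
  nlinarith

theorem e2 (q V : ℕ) (hq : 2 ≤ q) (hV : 0 < V) : 4 * q + 4 ≤ 8 * V * q := by
  nlinarith

theorem e3 (t w ℓ : ℝ) (ht : 0 ≤ t) (hw : 2 * t + 1 ≤ w) (hl : 1 / 2 < ℓ) :
    (t + 1) * ℓ + w / 4 < (w + 1) * ℓ := by
  nlinarith

theorem e4 (t p Y : ℝ) (hp : 0 ≤ p) (hY : 1 ≤ Y) (ht : t ≤ Y) :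
    (t + 4) * p + t ≤ (5 * p + 1) * Y := by
  nlinarith

theorem par : S_PAR := by
  intro p m V h c hp hm hV
  set q : ℕ := h + 2 with hq
  set A : ℕ := (m + 1) ^ m with hA
  set B : ℕ := 8 * V * q * m + 1 with hB
  set K : ℕ := 36 * m * A ^ 2 + 2 * m * c * (15 * A ^ 2 * B) ^ V + 8 * (5 * p + 1) ^ h +
    6 * m * A + 2 * m + 1 with hK
  refine ⟨K ^ (8 * V * q), ?_⟩
  intro n hn t Z ht hZ
  have hA1 : 1 ≤ A := Nat.one_le_pow _ _ (by omega)
  have hB1 : 1 ≤ B := by omega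
  have hm1 : (1 : ℝ) ≤ m := by exact_mod_cast hm
  have hV1 : (1 : ℝ) ≤ V := by exact_mod_cast hV
  have hE : 0 < 8 * V * q := by positivity
  have hK1 : 1 ≤ K := by omega
  have hn1 : 1 ≤ n := le_trans (Nat.one_le_pow _ _ hK1) hn
  have hn1R : (1 : ℝ) ≤ n := by exact_mod_cast hn1
  have hn0 : (0 : ℝ) ≤ n := by linarith
  -- the basic quantity
  set Y : ℝ := (n : ℝ) ^ (1 / ((8 * V * q : ℕ) : ℝ)) with hYdef
  have hY0 : 0 ≤ Y := Real.rpow_nonneg hn0 _
  have hYn : Y ^ (8 * V * q) = n := by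
    rw [hYdef, ← Real.rpow_natCast, ← Real.rpow_mul hn0, one_div, inv_mul_cancel₀, Real.rpow_one]
    exact_mod_cast hE.ne'
  have hKY : (K : ℝ) ≤ Y := by
    have h1 : ((K : ℝ)) ^ (8 * V * q) ≤ Y ^ (8 * V * q) := by
      rw [hYn]
      exact_mod_cast hn
    exact le_of_pow_le_pow_left₀ hE.ne' hY0 h1
  have hY1 : 1 ≤ Y := le_trans (by exact_mod_cast hK1) hKY
  have hYpos : 0 < Y := by linarith
  have hcK : (36 * m * A ^ 2 + 2 * m * c * (15 * A ^ 2 * B) ^ V + 8 * (5 * p + 1) ^ h +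
    6 * m * A + 2 * m + 1 : ℝ) ≤ Y := by
    have : ((K : ℕ) : ℝ) = (36 * m * A ^ 2 + 2 * m * c * (15 * A ^ 2 * B) ^ V +
      8 * (5 * p + 1) ^ h + 6 * m * A + 2 * m + 1 : ℝ) := by
      rw [hK]
      push_cast
      ring
    rw [← this]
    exact hKY
  have k1 : (0 : ℝ) ≤ 36 * m * A ^ 2 := by positivity
  have k2 : (0 : ℝ) ≤ 2 * m * c * (15 * A ^ 2 * B) ^ V := by positivity
  have k3 : (0 : ℝ) ≤ 8 * (5 * p + 1) ^ h := by positivity
  have k4 : (0 : ℝ) ≤ 6 * m * A := by positivity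
  have k5 : (0 : ℝ) ≤ 2 * m := by positivity
  -- the quantity `T = n ^ d`
  set T : ℝ := (n : ℝ) ^ (1 / (8 * V * m * (h + 2) : ℝ)) with hT
  have hT0 : 0 ≤ T := Real.rpow_nonneg hn0 _
  have hT1 : 1 ≤ T := Real.one_le_rpow hn1R (by positivity)
  have hTm : T ^ m = Y := by
    rw [hT, hYdef, ← Real.rpow_natCast, ← Real.rpow_mul hn0]
    congr 1
    rw [hq]
    push_cast
    field_simp
  have hTY : T ≤ Y := by
    rw [← hTm]
    exact le_self_pow₀ hT1 hm.ne'
  have htT : (t : ℝ) ≤ T := by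
    rw [ht]
    exact Nat.floor_le hT0
  have htY : (t : ℝ) ≤ Y := htT.trans hTY
  have hZA : (Z : ℝ) ≤ A * Y := by
    rw [hZ, hA, ← hTm]
    push_cast
    rw [← mul_pow]
    apply pow_le_pow_left₀ (by positivity)
    have h1 := mul_le_mul_of_nonneg_right htT (Nat.cast_nonneg (α := ℝ) m)
    linarith
  have hZ1 : (1 : ℝ) ≤ Z := by
    rw [hZ]
    exact_mod_cast Nat.one_le_pow _ _ (by omega)
  -- `P`, `j`, `r`
  set P : ℝ := Y ^ (4 * q) with hP
  have hP1 : 1 ≤ P := one_le_pow₀ hY1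
  set j : ℕ := ⌊P⌋₊ with hj
  have hjP : (j : ℝ) ≤ P := Nat.floor_le (by linarith)
  have hPj : P < j + 1 := Nat.lt_floor_add_one P
  set r : ℝ := 2 * (j : ℝ) + 1 with hr
  have hr1 : 1 ≤ r := by
    have : (0 : ℝ) ≤ j := Nat.cast_nonneg j
    linarith
  have hPr : P ≤ r := by linarith
  have hrP : r ≤ 3 * P := by linarith
  set S : ℝ := (Z : ℝ) * Z * r with hS
  have hZZ : (1 : ℝ) ≤ (Z : ℝ) * Z := one_le_mul_of_one_le_of_one_le hZ1 hZ1
  have hS1 : 1 ≤ S := one_le_mul_of_one_le_of_one_le hZZ hr1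
  have hAr : (1 : ℝ) ≤ A := by exact_mod_cast hA1
  have hBr : (1 : ℝ) ≤ B := by exact_mod_cast hB1
  have hSle : S ≤ 3 * (A : ℝ) ^ 2 * (Y ^ 2 * P) := by
    rw [hS]
    have h1 : (Z : ℝ) * Z ≤ (A * Y) * (A * Y) :=
      mul_le_mul hZA hZA (by linarith) (by positivity)
    calc (Z : ℝ) * Z * r ≤ ((A * Y) * (A * Y)) * (3 * P) :=
          mul_le_mul h1 hrP (by linarith) (by positivity)
      _ = 3 * (A : ℝ) ^ 2 * (Y ^ 2 * P) := by ring
  -- `L`
  set L : ℝ := m * Real.log n + 1 with hL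
  have hlog0 : 0 ≤ Real.log n := Real.log_nonneg hn1R
  have hL1 : 1 ≤ L := by
    rw [hL]
    have : 0 ≤ (m : ℝ) * Real.log n := by positivity
    linarith
  have hLB : L ≤ B * Y := by
    have h1 : Real.log n = (8 * V * q : ℕ) * Real.log Y := by
      rw [← hYn, Real.log_pow]
    have h2 : Real.log Y ≤ Y := Real.log_le_self hY0
    rw [hL, h1, hB]
    push_cast
    have h3 : (m : ℝ) * (8 * V * q * Real.log Y) ≤ (m : ℝ) * (8 * V * q * Y) := by
      apply mul_le_mul_of_nonneg_left _ (by positivity)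
      apply mul_le_mul_of_nonneg_left h2 (by positivity)
    calc (m : ℝ) * (8 * V * q * Real.log Y) + 1 ≤ (m : ℝ) * (8 * V * q * Y) + Y := by
          linarith
      _ = (8 * V * q * m + 1) * Y := by ring
  -- `k`
  set k : ℕ := ⌈4 * S * L⌉₊ with hk
  have hSL : 1 ≤ S * L := one_le_mul_of_one_le_of_one_le hS1 hL1
  have hk1 : 4 * S * L ≤ k := Nat.le_ceil _
  have hk2 : (k : ℝ) ≤ 5 * (S * L) := by
    have := Nat.ceil_lt_add_one (a := 4 * S * L) (by positivity)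
    linarith
  have hkpos : (0 : ℝ) < k := by linarith
  have hkle : (k : ℝ) ≤ 15 * (A : ℝ) ^ 2 * B * (Y ^ 3 * P) := by
    have h1 : S * L ≤ (3 * (A : ℝ) ^ 2 * (Y ^ 2 * P)) * (B * Y) :=
      mul_le_mul hSle hLB (by linarith) (by positivity)
    calc (k : ℝ) ≤ 5 * (S * L) := hk2
      _ ≤ 5 * ((3 * (A : ℝ) ^ 2 * (Y ^ 2 * P)) * (B * Y)) := by linarith
      _ = 15 * (A : ℝ) ^ 2 * B * (Y ^ 3 * P) := by ring
  have hkV : (m : ℝ) * (c * (k : ℝ) ^ V) ≤ n / 2 - 1 / 2 := by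
    have h1 : (k : ℝ) ^ V ≤ (15 * (A : ℝ) ^ 2 * B) ^ V * (Y ^ 3 * P) ^ V := by
      rw [← mul_pow]
      exact pow_le_pow_left₀ hkpos.le hkle V
    have h2 : (Y ^ 3 * P) ^ V = Y ^ ((4 * q + 3) * V) := by
      rw [hP, ← pow_add, ← pow_mul]
      congr 1
      ring
    rw [h2] at h1
    have h3 : 2 * ((m : ℝ) * (c * (k : ℝ) ^ V)) ≤
        (2 * m * c * (15 * (A : ℝ) ^ 2 * B) ^ V) * Y ^ ((4 * q + 3) * V) := by
      calc 2 * ((m : ℝ) * (c * (k : ℝ) ^ V)) ≤
          2 * ((m : ℝ) * (c * ((15 * (A : ℝ) ^ 2 * B) ^ V * Y ^ ((4 * q + 3) * V)))) := by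
            gcongr
        _ = (2 * m * c * (15 * (A : ℝ) ^ 2 * B) ^ V) * Y ^ ((4 * q + 3) * V) := by ring
    have h4 : (2 * m * c * (15 * (A : ℝ) ^ 2 * B) ^ V) ≤ Y - 1 := by linarith
    have h5 : (1 : ℝ) ≤ Y ^ ((4 * q + 3) * V) := one_le_pow₀ hY1
    have h6 : Y ^ ((4 * q + 3) * V) * Y ≤ n := by
      rw [← hYn, ← pow_succ]
      exact pow_le_pow_right₀ hY1 (e1 q V (by omega) hV)
    have h7 := mul_le_mul_of_nonneg_right h4 (show (0 : ℝ) ≤ Y ^ ((4 * q + 3) * V) by linarith)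
    linarith
  -- `ρ`
  set ρ : ℝ := L / k with hρ
  have hρ0 : 0 ≤ ρ := by positivity
  have hρ4 : ρ * S ≤ 1 / 4 := by
    rw [hρ, div_mul_eq_mul_div, div_le_iff₀ hkpos]
    linarith
  have hρ1 : ρ ≤ 1 := by
    have := le_mul_of_one_le_right hρ0 hS1
    linarith
  have hρk : ρ * k = L := by
    rw [hρ]
    field_simp
  -- `w`
  have hmS : (0 : ℝ) < 4 * m * S := by positivity
  set w : ℕ := ⌊(n : ℝ) / (4 * m * S)⌋₊ with hw
  have hwn : (w : ℝ) * (4 * m * S) ≤ n := by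
    rw [← le_div_iff₀ hmS]
    exact Nat.floor_le (by positivity)
  have hwt : 2 * t + 1 ≤ w := by
    rw [hw]
    apply Nat.le_floor
    rw [le_div_iff₀ hmS]
    push_cast
    have h1 : (2 * (t : ℝ) + 1) ≤ 3 * Y := by linarith
    have h2 : 4 * (m : ℝ) * S ≤ 4 * m * (3 * (A : ℝ) ^ 2 * (Y ^ 2 * P)) := by
      apply mul_le_mul_of_nonneg_left hSle (by positivity)
    calc (2 * (t : ℝ) + 1) * (4 * m * S) ≤
        (3 * Y) * (4 * m * (3 * (A : ℝ) ^ 2 * (Y ^ 2 * P))) :=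
          mul_le_mul h1 h2 (by positivity) (by positivity)
      _ = (36 * m * (A : ℝ) ^ 2) * (Y ^ (4 * q + 3)) := by
          rw [hP, pow_add]
          ring
      _ ≤ Y * Y ^ (4 * q + 3) := by
          apply mul_le_mul_of_nonneg_right _ (by positivity)
          linarith
      _ = Y ^ (4 * q + 4) := by ring
      _ ≤ Y ^ (8 * V * q) := pow_le_pow_right₀ hY1 (e2 q V (by omega) hV)
      _ = n := hYn
  refine ⟨j, k, w, Z * Z * ((2 * j + 1) * w), ρ, rfl, ?_, hρ0, hρ1, by omega, ?_, ?_, ?_, ?_, ?_,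
    ?_⟩
  · have : (0 : ℝ) < k := hkpos
    exact_mod_cast this
  · -- `n ^ m (1 - ρ) ^ k < 1`
    have h1 : (1 - ρ) ^ k ≤ Real.exp (-L) := by
      calc (1 - ρ) ^ k ≤ (Real.exp (-ρ)) ^ k :=
            pow_le_pow_left₀ (by linarith) (Real.one_sub_le_exp_neg ρ) k
        _ = Real.exp (-L) := by
            rw [← Real.exp_nat_mul]
            congr 1
            rw [← hρk]
            ring
    have h2 : (n : ℝ) ^ m = Real.exp (m * Real.log n) := by
      rw [Real.exp_nat_mul, Real.exp_log (by linarith)]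
    calc (n : ℝ) ^ m * (1 - ρ) ^ k ≤ (n : ℝ) ^ m * Real.exp (-L) :=
          mul_le_mul_of_nonneg_left h1 (by positivity)
      _ = Real.exp (-1) := by
          rw [h2, ← Real.exp_add]
          congr 1
          rw [hL]
          ring
      _ < 1 := by
          rw [Real.exp_lt_one_iff]
          norm_num
  · have hN : ((Z * Z * ((2 * j + 1) * w) : ℕ) : ℝ) = S * w := by
      push_cast
      rw [hS, hr]
      ring
    have hNm : ((Z * Z * ((2 * j + 1) * w) : ℕ) : ℝ) * m ≤ n / 4 := by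
      rw [hN]
      linarith
    have : ((m * (c * k ^ V) + (Z * Z * ((2 * j + 1) * w)) * m : ℕ) : ℝ) < (n : ℝ) := by
      rw [Nat.cast_add, Nat.cast_mul (Z * Z * ((2 * j + 1) * w)) m]
      push_cast at hNm ⊢
      linarith
    exact_mod_cast this
  · have hN : ((Z * Z * ((2 * j + 1) * w) : ℕ) : ℝ) = S * w := by
      push_cast
      rw [hS, hr]
      ring
    have hNm : ((Z * Z * ((2 * j + 1) * w) : ℕ) : ℝ) * m ≤ n / 4 := by
      rw [hN]
      linarith
    have hYn' : Y ≤ n := by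
      rw [← hYn]
      exact le_self_pow₀ hY1 hE.ne'
    have : ((m + (Z * Z * ((2 * j + 1) * w)) * m : ℕ) : ℝ) ≤ (n : ℝ) := by
      rw [Nat.cast_add, Nat.cast_mul (Z * Z * ((2 * j + 1) * w)) m]
      linarith
    exact_mod_cast this
  · -- `2 ^ (t + 1) (1 + ρ) ^ N < 2 ^ (w + 1)`
    have hN : ((Z * Z * ((2 * j + 1) * w) : ℕ) : ℝ) = S * w := by
      push_cast
      rw [hS, hr]
      ring
    have h1 : (1 + ρ) ^ (Z * Z * ((2 * j + 1) * w)) ≤ Real.exp (w / 4) := by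
      calc (1 + ρ) ^ (Z * Z * ((2 * j + 1) * w)) ≤
          (Real.exp ρ) ^ (Z * Z * ((2 * j + 1) * w)) := by
            apply pow_le_pow_left₀ (by linarith)
            have := Real.add_one_le_exp ρ
            linarith
        _ = Real.exp (ρ * S * w) := by
            rw [← Real.exp_nat_mul, hN]
            congr 1
            ring
        _ ≤ Real.exp (w / 4) := by
            apply Real.exp_le_exp.mpr
            have h8 := mul_le_mul_of_nonneg_right hρ4 (Nat.cast_nonneg (α := ℝ) w)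
            linarith
    have h2 : ∀ a : ℕ, (2 : ℝ) ^ a = Real.exp (a * Real.log 2) := by
      intro a
      rw [Real.exp_nat_mul, Real.exp_log (by norm_num)]
    calc (2 : ℝ) ^ (t + 1) * (1 + ρ) ^ (Z * Z * ((2 * j + 1) * w)) ≤
        (2 : ℝ) ^ (t + 1) * Real.exp (w / 4) :=
          mul_le_mul_of_nonneg_left h1 (by positivity)
      _ = Real.exp ((t + 1) * Real.log 2 + w / 4) := by
          rw [h2, Real.exp_add]
          push_cast
          ring
      _ < Real.exp ((w + 1) * Real.log 2) := by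
          apply Real.exp_lt_exp.mpr
          have h3 := Real.log_two_gt_d9
          have h4 : (2 * (t : ℝ) + 1) ≤ w := by exact_mod_cast hwt
          exact e3 _ _ _ (Nat.cast_nonneg t) h4 (by linarith)
      _ = (2 : ℝ) ^ (w + 1) := by
          rw [h2]
          push_cast
          ring
  · have h1 : ((2 * ((2 * j + 1) * (m * Z)) : ℕ) : ℝ) ≤ n := by
      push_cast
      calc 2 * ((2 * (j : ℝ) + 1) * (m * Z)) ≤ 2 * ((3 * P) * (m * (A * Y))) := by
            gcongr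
        _ = (6 * m * A) * Y ^ (4 * q + 1) := by
            rw [hP]
            ring
        _ ≤ Y * Y ^ (4 * q + 1) := by
            apply mul_le_mul_of_nonneg_right _ (by positivity)
            linarith
        _ = Y ^ (4 * q + 2) := by ring
        _ ≤ Y ^ (8 * V * q) := by
            apply pow_le_pow_right₀ hY1
            have := e2 q V (by omega) hV
            omega
        _ = n := hYn
    exact_mod_cast h1
  · have h1 : Y ^ (2 * q) ≤ √(2 * j + 1) := by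
      apply Real.le_sqrt_of_sq_le
      rw [← pow_mul]
      have : 2 * q * 2 = 4 * q := by ring
      rw [this]
      exact hPr
    push_cast
    have h2 : ((t : ℝ) + 2) ≤ 3 * Y := by linarith
    have hp0 : (0 : ℝ) ≤ p := Nat.cast_nonneg p
    have h3 : ((t : ℝ) + 4) * p + t ≤ (5 * p + 1) * Y := e4 _ _ _ hp0 hY1 htY
    have ht0 : (0 : ℝ) ≤ t := Nat.cast_nonneg t
    have h4 : (((t : ℝ) + 4) * p + t) ^ h ≤ (5 * p + 1) ^ h * Y ^ h := by
      rw [← mul_pow]
      apply pow_le_pow_left₀ (by positivity) h3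
    calc 8 * (((t : ℝ) + 2) * (((t : ℝ) + 4) * p + t) ^ h) ≤
        8 * ((3 * Y) * ((5 * p + 1) ^ h * Y ^ h)) := by
          gcongr
      _ = 3 * ((8 * (5 * p + 1) ^ h) * Y ^ (h + 1)) := by ring
      _ < 3 * (Y * Y ^ (h + 1)) := by
          have h5 : (8 * (5 * (p : ℝ) + 1) ^ h) < Y := by linarith
          have h6 : (0 : ℝ) < Y ^ (h + 1) := by positivity
          have h7 := mul_lt_mul_of_pos_right h5 h6
          linarith
      _ = 3 * Y ^ (h + 2) := by ring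
      _ ≤ 3 * Y ^ (2 * q) := by
          apply mul_le_mul_of_nonneg_left _ (by norm_num)
          apply pow_le_pow_right₀ hY1
          omega
      _ ≤ 3 * √(2 * j + 1) := by
          apply mul_le_mul_of_nonneg_left h1 (by norm_num)

end Pool.Agent.W409.TM
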